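import Mathlib

/-!
Project MP_0e91ac_co, `k = 4`. A choice lemma: if the contact angles `Psi i j` (for all ordered pairs of four bodies)
satisfy `E cos (Psi i j) ≥ 0` for independent random states and `Psi i j ≤ π / 2 + M`, `6 (1 - cos M) < 1`, then for
one of the six cyclic orders and some states the sum of the four contact angles is at most `2 π`.
-/

namespace Pool.Helper19.FR

open MeasureTheory Real

/-- The integral of a positive function over a probability space is positive. -/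
theorem int_pos19 {α : Type*} [MeasurableSpace α] (μ : Measure α) [IsProbabilityMeasure μ] {f : α → ℝ}
    (hf : Integrable f μ) (h : ∀ a, 0 < f a) : 0 < ∫ a, f a ∂μ := by
  rw [integral_pos_iff_support_of_nonneg (fun a => (h a).le) hf]
  have : Function.support f = Set.univ := by
    ext a
    simp [(h a).ne']
  rw [this]
  simp

/-- `x - sin x` on pairs: only the upper bound is needed. -/
theorem phi_le19 {M a b : ℝ} (hM : M ≤ π) (ha : a ≤ M) (hb : b ≤ M) :
    (a + b) - (sin a + sin b) ≤ (1 - cos M) * max (a + b) 0 := by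
  have hmono : Monotone fun x : ℝ => x - sin x := by
    refine monotone_of_deriv_nonneg (by fun_prop) fun x => ?_
    have : deriv (fun x : ℝ => x - sin x) x = 1 - cos x := by
      exact ((hasDerivAt_id x).sub (hasDerivAt_sin x)).deriv
    rw [this]
    linarith [cos_le_one x]
  rcases le_or_gt (a + b) 0 with h | h
  · rw [max_eq_right h]
    have := hmono (show a ≤ -b by linarith)
    simp only [sin_neg] at this
    linarith
  · rw [max_eq_left h.le]
    have hab : -b ≤ a := by linarith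
    have hd : ∀ x ∈ Set.Icc (-M) M, 1 - cos x ≤ 1 - cos M := by
      intro x hx
      have : cos M ≤ cos x := by
        rw [← cos_abs x]
        exact cos_le_cos_of_nonneg_of_le_pi (abs_nonneg x) hM (abs_le.2 hx)
      linarith
    have key : (a - sin a) - (-b - sin (-b)) ≤ (1 - cos M) * (a - -b) := by
      have hc : Convex ℝ (Set.Icc (-M) M) := convex_Icc _ _
      refine hc.image_sub_le_mul_sub_of_deriv_le (f := fun x : ℝ => x - sin x) (by fun_prop)
        (by fun_prop) ?_ (-b) ⟨by linarith, by linarith⟩ a ⟨by linarith, ha⟩ hab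
      intro x hx
      have : deriv (fun x : ℝ => x - sin x) x = 1 - cos x := by
        exact ((hasDerivAt_id x).sub (hasDerivAt_sin x)).deriv
      rw [this]
      exact hd x (interior_subset hx)
    rw [sin_neg] at key
    linarith

section

variable {Ω : Fin 4 → Type} [∀ i, MeasurableSpace (Ω i)] (μ : ∀ i, Measure (Ω i))
  [∀ i, IsProbabilityMeasure (μ i)] (δ : ∀ i j, Ω i → Ω j → ℝ)

/-- Mean over the second state. -/
noncomputable def X19 (i j : Fin 4) (s : Ω i) : ℝ := ∫ t, δ i j s t ∂μ j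

/-- Mean over the first state. -/
noncomputable def Y19 (i j : Fin 4) (t : Ω j) : ℝ := ∫ s, δ i j s t ∂μ i

/-- Mean. -/
noncomputable def m19 (i j : Fin 4) : ℝ := ∫ s, ∫ t, δ i j s t ∂μ j ∂μ i

/-- Positive part of the sum of the two orientations. -/
noncomputable def P19 (i j : Fin 4) : ℝ := ∫ s, ∫ t, max (δ i j s t + δ j i t s) 0 ∂μ j ∂μ i

/-- Negative part of the sum of the two orientations. -/
noncomputable def N19 (i j : Fin 4) : ℝ := ∫ s, ∫ t, max (-(δ i j s t + δ j i t s)) 0 ∂μ j ∂μ i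

variable {μ δ} {B : ℝ} (hm : ∀ i j, Measurable (Function.uncurry (δ i j)))
  (hB : ∀ i j s t, |δ i j s t| ≤ B)

include hm hB

theorem intδ19 (i j : Fin 4) (s : Ω i) : Integrable (fun t => δ i j s t) (μ j) :=
  Integrable.of_bound ((hm i j).comp measurable_prodMk_left).aestronglyMeasurable B
    (Filter.Eventually.of_forall fun t => by simpa using hB i j s t)

theorem intδ19' (i j : Fin 4) (t : Ω j) : Integrable (fun s => δ i j s t) (μ i) :=
  Integrable.of_bound ((hm i j).comp measurable_prodMk_right).aestronglyMeasurable B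
    (Filter.Eventually.of_forall fun s => by simpa using hB i j s t)

theorem intX19 (i j : Fin 4) : Integrable (X19 μ δ i j) (μ i) := by
  refine Integrable.of_bound ?_ B (Filter.Eventually.of_forall fun s => ?_)
  · exact ((hm i j).stronglyMeasurable.integral_prod_right).aestronglyMeasurable
  · have := norm_integral_le_of_norm_le_const (μ := μ j) (f := fun t => δ i j s t) (C := B)
      (Filter.Eventually.of_forall fun t => by simpa using hB i j s t)
    simpa [X19] using this

theorem intY19 (i j : Fin 4) : Integrable (Y19 μ δ i j) (μ j) := by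
  refine Integrable.of_bound ?_ B (Filter.Eventually.of_forall fun t => ?_)
  · exact ((hm i j).stronglyMeasurable.integral_prod_left).aestronglyMeasurable
  · have := norm_integral_le_of_norm_le_const (μ := μ i) (f := fun s => δ i j s t) (C := B)
      (Filter.Eventually.of_forall fun s => by simpa using hB i j s t)
    simpa [Y19] using this

omit [∀ i, IsProbabilityMeasure (μ i)] hm hB in
theorem intXm19 (i j : Fin 4) : ∫ s, X19 μ δ i j s ∂μ i = m19 μ δ i j := rfl

theorem intYm19 (i j : Fin 4) : ∫ t, Y19 μ δ i j t ∂μ j = m19 μ δ i j := by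
  unfold Y19 m19
  have hi : Integrable (Function.uncurry (δ i j)) ((μ i).prod (μ j)) :=
    Integrable.of_bound (hm i j).aestronglyMeasurable B
      (Filter.Eventually.of_forall fun p => by simpa [Function.uncurry] using hB i j p.1 p.2)
  exact (integral_integral_swap hi).symm

/-- First step: integrate over the last state `d`. -/
theorem step19 {a b c d : Fin 4} (h : ∀ (sa : Ω a) (sb : Ω b) (sc : Ω c) (sd : Ω d),
    0 < δ a b sa sb + δ b c sb sc + δ c d sc sd + δ d a sd sa) :
    (∀ (sa : Ω a) (sb : Ω b), 0 < δ a b sa sb + X19 μ δ b c sb + m19 μ δ c d + Y19 μ δ d a sa) ∧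
    (∀ sb : Ω b, 0 < Y19 μ δ a b sb + X19 μ δ b c sb + m19 μ δ c d + m19 μ δ d a) ∧
    0 < m19 μ δ a b + m19 μ δ b c + m19 μ δ c d + m19 μ δ d a := by
  have h1 : ∀ (sa : Ω a) (sb : Ω b) (sc : Ω c),
      0 < δ a b sa sb + δ b c sb sc + X19 μ δ c d sc + Y19 μ δ d a sa := by
    intro sa sb sc
    have hi := ((integrable_const (δ a b sa sb + δ b c sb sc)).add
      (intδ19 (μ := μ) hm hB c d sc)).add (intδ19' (μ := μ) hm hB d a sa)
    have := int_pos19 (μ d) hi fun sd => by simpa using h sa sb sc sd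
    rw [integral_add' ((integrable_const _).add (intδ19 hm hB c d sc)) (intδ19' hm hB d a sa),
      integral_add' (integrable_const _) (intδ19 hm hB c d sc)] at this
    simpa [X19, Y19] using this
  have h2 : ∀ (sa : Ω a) (sb : Ω b),
      0 < δ a b sa sb + X19 μ δ b c sb + m19 μ δ c d + Y19 μ δ d a sa := by
    intro sa sb
    have hi := ((integrable_const (δ a b sa sb + Y19 μ δ d a sa)).add
      (intδ19 (μ := μ) hm hB b c sb)).add (intX19 (μ := μ) hm hB c d)
    have := int_pos19 (μ c) hi fun sc => by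
      have := h1 sa sb sc
      simp only [Pi.add_apply]
      linarith
    rw [integral_add' ((integrable_const _).add (intδ19 hm hB b c sb)) (intX19 hm hB c d),
      integral_add' (integrable_const _) (intδ19 hm hB b c sb), intXm19] at this
    simp only [integral_const, probReal_univ, one_smul] at this
    have e : ∫ x, δ b c sb x ∂μ c = X19 μ δ b c sb := rfl
    rw [e] at this
    linarith
  have h3 : ∀ sb : Ω b, 0 < Y19 μ δ a b sb + X19 μ δ b c sb + m19 μ δ c d + m19 μ δ d a := by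
    intro sb
    have hi := ((integrable_const (X19 μ δ b c sb + m19 μ δ c d)).add
      (intδ19' (μ := μ) hm hB a b sb)).add (intY19 (μ := μ) hm hB d a)
    have := int_pos19 (μ a) hi fun sa => by
      have := h2 sa sb
      simp only [Pi.add_apply]
      linarith
    rw [integral_add' ((integrable_const _).add (intδ19' hm hB a b sb)) (intY19 hm hB d a),
      integral_add' (integrable_const _) (intδ19' hm hB a b sb), intYm19 hm hB] at this
    simp only [integral_const, probReal_univ, one_smul] at this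
    have e : ∫ x, δ a b x sb ∂μ a = Y19 μ δ a b sb := rfl
    rw [e] at this
    linarith
  refine ⟨h2, h3, ?_⟩
  have hi := ((integrable_const (m19 μ δ c d + m19 μ δ d a)).add
    (intY19 (μ := μ) hm hB a b)).add (intX19 (μ := μ) hm hB b c)
  have := int_pos19 (μ b) hi fun sb => by
    have := h3 sb
    simp only [Pi.add_apply]
    linarith
  rw [integral_add' ((integrable_const _).add (intY19 hm hB a b)) (intX19 hm hB b c),
    integral_add' (integrable_const _) (intY19 hm hB a b), intYm19 hm hB, intXm19] at this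
  simp only [integral_const, probReal_univ, one_smul] at this
  linarith

theorem intT19 (i j : Fin 4) : Integrable (fun p : Ω i × Ω j => δ i j p.1 p.2 + δ j i p.2 p.1)
    ((μ i).prod (μ j)) := by
  refine Integrable.of_bound ?_ (B + B) (Filter.Eventually.of_forall fun p => ?_)
  · exact ((hm i j).add ((hm j i).comp measurable_swap)).aestronglyMeasurable
  · refine (norm_add_le _ _).trans ?_
    simpa using add_le_add (hB i j p.1 p.2) (hB j i p.2 p.1)

theorem P_sub_N19 (i j : Fin 4) : P19 μ δ i j - N19 μ δ i j = m19 μ δ i j + m19 μ δ j i := by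
  have hT := intT19 (μ := μ) hm hB i j
  have hP : Integrable (fun p : Ω i × Ω j => max (δ i j p.1 p.2 + δ j i p.2 p.1) 0)
      ((μ i).prod (μ j)) := hT.pos_part
  have hN : Integrable (fun p : Ω i × Ω j => max (-(δ i j p.1 p.2 + δ j i p.2 p.1)) 0)
      ((μ i).prod (μ j)) := hT.neg_part
  have h1 : Integrable (fun p : Ω i × Ω j => δ i j p.1 p.2) ((μ i).prod (μ j)) :=
    Integrable.of_bound (hm i j).aestronglyMeasurable B
      (Filter.Eventually.of_forall fun p => by simpa using hB i j p.1 p.2)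
  have h2 : Integrable (fun p : Ω i × Ω j => δ j i p.2 p.1) ((μ i).prod (μ j)) :=
    Integrable.of_bound ((hm j i).comp measurable_swap).aestronglyMeasurable B
      (Filter.Eventually.of_forall fun p => by simpa using hB j i p.2 p.1)
  have e1 : P19 μ δ i j = ∫ p : Ω i × Ω j, max (δ i j p.1 p.2 + δ j i p.2 p.1) 0
      ∂((μ i).prod (μ j)) := (integral_prod _ hP).symm
  have e2 : N19 μ δ i j = ∫ p : Ω i × Ω j, max (-(δ i j p.1 p.2 + δ j i p.2 p.1)) 0
      ∂((μ i).prod (μ j)) := (integral_prod _ hN).symm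
  have e3 : m19 μ δ i j = ∫ p : Ω i × Ω j, δ i j p.1 p.2 ∂((μ i).prod (μ j)) :=
    (integral_prod _ h1).symm
  have e4 : m19 μ δ j i = ∫ p : Ω i × Ω j, δ j i p.2 p.1 ∂((μ i).prod (μ j)) := by
    rw [integral_prod _ h2]
    exact (intYm19 (μ := μ) hm hB j i).symm
  rw [e1, e2, e3, e4, ← integral_sub hP hN, ← integral_add h1 h2]
  congr 1
  ext p
  rcases le_total 0 (δ i j p.1 p.2 + δ j i p.2 p.1) with h | h
  · rw [max_eq_left h, max_eq_right (by linarith)]
    ring
  · rw [max_eq_right h, max_eq_left (by linarith)]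
    ring

omit [∀ i, IsProbabilityMeasure (μ i)] hm hB in
theorem P_nonneg19 (i j : Fin 4) : 0 ≤ P19 μ δ i j :=
  integral_nonneg fun _ => integral_nonneg fun _ => le_max_right _ _

/-- `E T ≤ κ E T_+`. -/
theorem mu_le19 {M : ℝ} (hM : M ≤ π) {i j : Fin 4} (hij : ∀ s t, δ i j s t ≤ M)
    (hji : ∀ s t, δ j i s t ≤ M) (h1 : ∫ s, ∫ t, sin (δ i j s t) ∂μ j ∂μ i ≤ 0)
    (h2 : ∫ s, ∫ t, sin (δ j i s t) ∂μ i ∂μ j ≤ 0) :
    m19 μ δ i j + m19 μ δ j i ≤ (1 - cos M) * P19 μ δ i j := by
  have hT := intT19 (μ := μ) hm hB i j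
  have hP : Integrable (fun p : Ω i × Ω j => max (δ i j p.1 p.2 + δ j i p.2 p.1) 0)
      ((μ i).prod (μ j)) := hT.pos_part
  have i1 : Integrable (fun p : Ω i × Ω j => δ i j p.1 p.2) ((μ i).prod (μ j)) :=
    Integrable.of_bound (hm i j).aestronglyMeasurable B
      (Filter.Eventually.of_forall fun p => by simpa using hB i j p.1 p.2)
  have i2 : Integrable (fun p : Ω i × Ω j => δ j i p.2 p.1) ((μ i).prod (μ j)) :=
    Integrable.of_bound ((hm j i).comp measurable_swap).aestronglyMeasurable B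
      (Filter.Eventually.of_forall fun p => by simpa using hB j i p.2 p.1)
  have i3 : Integrable (fun p : Ω i × Ω j => sin (δ i j p.1 p.2)) ((μ i).prod (μ j)) :=
    Integrable.of_bound (measurable_sin.comp (hm i j)).aestronglyMeasurable 1
      (Filter.Eventually.of_forall fun p => by simpa using abs_sin_le_one (δ i j p.1 p.2))
  have i4 : Integrable (fun p : Ω i × Ω j => sin (δ j i p.2 p.1)) ((μ i).prod (μ j)) :=
    Integrable.of_bound (measurable_sin.comp ((hm j i).comp measurable_swap)).aestronglyMeasurable 1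
      (Filter.Eventually.of_forall fun p => by simpa using abs_sin_le_one (δ j i p.2 p.1))
  have e1 : P19 μ δ i j = ∫ p : Ω i × Ω j, max (δ i j p.1 p.2 + δ j i p.2 p.1) 0
      ∂((μ i).prod (μ j)) := (integral_prod _ hP).symm
  have e3 : m19 μ δ i j = ∫ p : Ω i × Ω j, δ i j p.1 p.2 ∂((μ i).prod (μ j)) :=
    (integral_prod _ i1).symm
  have e4 : m19 μ δ j i = ∫ p : Ω i × Ω j, δ j i p.2 p.1 ∂((μ i).prod (μ j)) := by
    rw [integral_prod _ i2]
    exact (intYm19 (μ := μ) hm hB j i).symm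
  have e5 : ∫ p : Ω i × Ω j, sin (δ i j p.1 p.2) ∂((μ i).prod (μ j)) ≤ 0 := by
    rw [integral_prod _ i3]
    exact h1
  have e6 : ∫ p : Ω i × Ω j, sin (δ j i p.2 p.1) ∂((μ i).prod (μ j)) ≤ 0 := by
    rw [integral_prod _ i4, integral_integral_swap (f := fun (s : Ω i) (t : Ω j) => sin (δ j i t s)) i4]
    exact h2
  have key : ∫ p : Ω i × Ω j, ((δ i j p.1 p.2 + δ j i p.2 p.1) -
      (sin (δ i j p.1 p.2) + sin (δ j i p.2 p.1))) ∂((μ i).prod (μ j)) ≤
      ∫ p : Ω i × Ω j, (1 - cos M) * max (δ i j p.1 p.2 + δ j i p.2 p.1) 0 ∂((μ i).prod (μ j)) :=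
    integral_mono ((i1.add i2).sub (i3.add i4)) (hP.const_mul _)
      fun p => phi_le19 hM (hij p.1 p.2) (hji p.2 p.1)
  have i12 : Integrable (fun p : Ω i × Ω j => δ i j p.1 p.2 + δ j i p.2 p.1)
      ((μ i).prod (μ j)) := i1.add i2
  have i34 : Integrable (fun p : Ω i × Ω j => sin (δ i j p.1 p.2) + sin (δ j i p.2 p.1))
      ((μ i).prod (μ j)) := i3.add i4
  rw [integral_const_mul, integral_sub i12 i34, integral_add i1 i2, integral_add i3 i4] at key
  rw [e1, e3, e4]
  linarith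

/-- The bound for the negative part; `{i, j, k, l}` are the four bodies. -/
theorem N_le19 {i j k l : Fin 4} {C : ℝ}
    (hpos : ∀ (a b c d : Fin 4), [a, b, c, d].Nodup → ∀ (sa : Ω a) (sb : Ω b) (sc : Ω c) (sd : Ω d),
      0 < δ a b sa sb + δ b c sb sc + δ c d sc sd + δ d a sd sa)
    (hn : [i, j, k, l].Nodup) (hC0 : 0 ≤ C)
    (hC : (m19 μ δ i j + m19 μ δ j i) + 3 * (m19 μ δ k l + m19 μ δ l k) -
      (m19 μ δ i j + m19 μ δ j i + m19 μ δ i k + m19 μ δ k i + m19 μ δ i l + m19 μ δ l i +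
       m19 μ δ j k + m19 μ δ k j + m19 μ δ j l + m19 μ δ l j + m19 μ δ k l + m19 μ δ l k) ≤ 2 * C) :
    N19 μ δ i j ≤ C + ((m19 μ δ l i + m19 μ δ i k + m19 μ δ k j + m19 μ δ j l) +
      (m19 μ δ k i + m19 μ δ i l + m19 μ δ l j + m19 μ δ j k)) := by
  simp only [List.nodup_cons, List.mem_cons, List.not_mem_nil, or_false, not_or,
    List.nodup_nil, and_true, not_false_eq_true] at hn
  obtain ⟨⟨nij, nik, nil⟩, ⟨njk, njl⟩, nkl⟩ := hn
  have a1 := (step19 (μ := μ) hm hB (hpos i j k l (by simp; tauto))).1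
  have a2 := (step19 (μ := μ) hm hB (hpos j i k l (by simp; tauto))).1
  have a3 := (step19 (μ := μ) hm hB (hpos l i k j (by simp; tauto))).2.1
  have a4 := (step19 (μ := μ) hm hB (hpos l j k i (by simp; tauto))).2.1
  have b1 := (step19 (μ := μ) hm hB (hpos i j l k (by simp; tauto))).1
  have b2 := (step19 (μ := μ) hm hB (hpos j i l k (by simp; tauto))).1
  have b3 := (step19 (μ := μ) hm hB (hpos k i l j (by simp; tauto))).2.1
  have b4 := (step19 (μ := μ) hm hB (hpos k j l i (by simp; tauto))).2.1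
  have hT := intT19 (μ := μ) hm hB i j
  have hN : Integrable (fun p : Ω i × Ω j => max (-(δ i j p.1 p.2 + δ j i p.2 p.1)) 0)
      ((μ i).prod (μ j)) := hT.neg_part
  have e2 : N19 μ δ i j = ∫ p : Ω i × Ω j, max (-(δ i j p.1 p.2 + δ j i p.2 p.1)) 0
      ∂((μ i).prod (μ j)) := (integral_prod _ hN).symm
  have g1 : Integrable (fun s : Ω i => C + 1 / 2 * ((Y19 μ δ l i s + X19 μ δ i k s + m19 μ δ k j +
      m19 μ δ j l) + (Y19 μ δ k i s + X19 μ δ i l s + m19 μ δ l j + m19 μ δ j k))) (μ i) :=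
    (integrable_const _).add (((((((intY19 hm hB l i).add (intX19 hm hB i k)).add
      (integrable_const _)).add (integrable_const _))).add (((((intY19 hm hB k i).add
      (intX19 hm hB i l)).add (integrable_const _)).add (integrable_const _)))).const_mul _)
  have g2 : Integrable (fun t : Ω j => 1 / 2 * ((Y19 μ δ l j t + X19 μ δ j k t + m19 μ δ k i +
      m19 μ δ i l) + (Y19 μ δ k j t + X19 μ δ j l t + m19 μ δ l i + m19 μ δ i k))) (μ j) :=
    (((((((intY19 hm hB l j).add (intX19 hm hB j k)).add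
      (integrable_const _)).add (integrable_const _))).add (((((intY19 hm hB k j).add
      (intX19 hm hB j l)).add (integrable_const _)).add (integrable_const _)))).const_mul _)
  have key : N19 μ δ i j ≤ ∫ p : Ω i × Ω j, ((C + 1 / 2 * ((Y19 μ δ l i p.1 + X19 μ δ i k p.1 +
      m19 μ δ k j + m19 μ δ j l) + (Y19 μ δ k i p.1 + X19 μ δ i l p.1 + m19 μ δ l j +
      m19 μ δ j k))) + (1 / 2 * ((Y19 μ δ l j p.2 + X19 μ δ j k p.2 + m19 μ δ k i +
      m19 μ δ i l) + (Y19 μ δ k j p.2 + X19 μ δ j l p.2 + m19 μ δ l i + m19 μ δ i k))))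
      ∂((μ i).prod (μ j)) := by
    rw [e2]
    refine integral_mono hN ((g1.comp_fst (μ j)).add (g2.comp_snd (μ i))) fun p => ?_
    have c1 := a1 p.1 p.2
    have c2 := a2 p.2 p.1
    have c3 := a3 p.1
    have c4 := a4 p.2
    have d1 := b1 p.1 p.2
    have d2 := b2 p.2 p.1
    have d3 := b3 p.1
    have d4 := b4 p.2
    refine max_le ?_ ?_ <;> simp only <;> linarith
  rw [integral_add (g1.comp_fst (μ j)) (g2.comp_snd (μ i)),
    integral_fun_fst (fun s : Ω i => C + 1 / 2 * ((Y19 μ δ l i s + X19 μ δ i k s + m19 μ δ k j +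
      m19 μ δ j l) + (Y19 μ δ k i s + X19 μ δ i l s + m19 μ δ l j + m19 μ δ j k))),
    integral_fun_snd (fun t : Ω j => 1 / 2 * ((Y19 μ δ l j t + X19 μ δ j k t + m19 μ δ k i +
      m19 μ δ i l) + (Y19 μ δ k j t + X19 μ δ j l t + m19 μ δ l i + m19 μ δ i k)))] at key
  simp only [probReal_univ, one_smul] at key
  have f1 : ∫ s : Ω i, (C + 1 / 2 * ((Y19 μ δ l i s + X19 μ δ i k s + m19 μ δ k j +
      m19 μ δ j l) + (Y19 μ δ k i s + X19 μ δ i l s + m19 μ δ l j + m19 μ δ j k))) ∂(μ i) =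
      C + 1 / 2 * ((m19 μ δ l i + m19 μ δ i k + m19 μ δ k j + m19 μ δ j l) +
        (m19 μ δ k i + m19 μ δ i l + m19 μ δ l j + m19 μ δ j k)) := by
    have y1 := intY19 (μ := μ) hm hB l i
    have x1 := intX19 (μ := μ) hm hB i k
    have y2 := intY19 (μ := μ) hm hB k i
    have x2 := intX19 (μ := μ) hm hB i l
    have h : ∀ s : Ω i, (C + 1 / 2 * ((Y19 μ δ l i s + X19 μ δ i k s + m19 μ δ k j +
      m19 μ δ j l) + (Y19 μ δ k i s + X19 μ δ i l s + m19 μ δ l j + m19 μ δ j k))) =
      (C + 1 / 2 * (m19 μ δ k j + m19 μ δ j l + m19 μ δ l j + m19 μ δ j k)) +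
      1 / 2 * ((Y19 μ δ l i s + X19 μ δ i k s) + (Y19 μ δ k i s + X19 μ δ i l s)) := fun s => by ring
    simp_rw [h]
    have z1 : Integrable (fun s : Ω i => Y19 μ δ l i s + X19 μ δ i k s) (μ i) := y1.add x1
    have z2 : Integrable (fun s : Ω i => Y19 μ δ k i s + X19 μ δ i l s) (μ i) := y2.add x2
    have z3 : Integrable (fun s : Ω i => (Y19 μ δ l i s + X19 μ δ i k s) +
      (Y19 μ δ k i s + X19 μ δ i l s)) (μ i) := z1.add z2
    rw [integral_add (integrable_const _) (z3.const_mul _), integral_const_mul, integral_add z1 z2,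
      integral_add y1 x1, integral_add y2 x2, intYm19 hm hB l i, intYm19 hm hB k i, intXm19,
      intXm19]
    simp only [integral_const, probReal_univ, one_smul]
    ring
  have f2 : ∫ t : Ω j, (1 / 2 * ((Y19 μ δ l j t + X19 μ δ j k t + m19 μ δ k i +
      m19 μ δ i l) + (Y19 μ δ k j t + X19 μ δ j l t + m19 μ δ l i + m19 μ δ i k))) ∂(μ j) =
      1 / 2 * ((m19 μ δ l j + m19 μ δ j k + m19 μ δ k i + m19 μ δ i l) +
        (m19 μ δ k j + m19 μ δ j l + m19 μ δ l i + m19 μ δ i k)) := by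
    have y1 := intY19 (μ := μ) hm hB l j
    have x1 := intX19 (μ := μ) hm hB j k
    have y2 := intY19 (μ := μ) hm hB k j
    have x2 := intX19 (μ := μ) hm hB j l
    have h : ∀ t : Ω j, (1 / 2 * ((Y19 μ δ l j t + X19 μ δ j k t + m19 μ δ k i +
      m19 μ δ i l) + (Y19 μ δ k j t + X19 μ δ j l t + m19 μ δ l i + m19 μ δ i k))) =
      ((m19 μ δ k i + m19 μ δ i l + m19 μ δ l i + m19 μ δ i k) / 2) +
      1 / 2 * ((Y19 μ δ l j t + X19 μ δ j k t) + (Y19 μ δ k j t + X19 μ δ j l t)) := fun t => by ring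
    simp_rw [h]
    have z1 : Integrable (fun s : Ω j => Y19 μ δ l j s + X19 μ δ j k s) (μ j) := y1.add x1
    have z2 : Integrable (fun s : Ω j => Y19 μ δ k j s + X19 μ δ j l s) (μ j) := y2.add x2
    have z3 : Integrable (fun s : Ω j => (Y19 μ δ l j s + X19 μ δ j k s) +
      (Y19 μ δ k j s + X19 μ δ j l s)) (μ j) := z1.add z2
    rw [integral_add (integrable_const _) (z3.const_mul _), integral_const_mul, integral_add z1 z2,
      integral_add y1 x1, integral_add y2 x2, intYm19 hm hB l j, intYm19 hm hB k j, intXm19,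
      intXm19]
    simp only [integral_const, probReal_univ, one_smul]
    ring
  rw [f1, f2] at key
  linarith

/-- The core: it is impossible that all the sums are positive. -/
theorem core19 {M : ℝ} (hM : M ≤ π) (hκ : 6 * (1 - cos M) < 1)
    (hle : ∀ i j, i ≠ j → ∀ s t, δ i j s t ≤ M)
    (hs : ∀ i j, i ≠ j → ∫ s, ∫ t, sin (δ i j s t) ∂μ j ∂μ i ≤ 0)
    (hpos : ∀ (a b c d : Fin 4), [a, b, c, d].Nodup → ∀ (sa : Ω a) (sb : Ω b) (sc : Ω c) (sd : Ω d),
      0 < δ a b sa sb + δ b c sb sc + δ c d sc sd + δ d a sd sa) : False := by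
  have hκ0 : 0 ≤ 1 - cos M := by linarith [cos_le_one M]
  have mu : ∀ i j, i ≠ j → m19 μ δ i j + m19 μ δ j i ≤ (1 - cos M) * P19 μ δ i j := fun i j h =>
    mu_le19 hm hB hM (hle i j h) (hle j i h.symm) (hs i j h) (hs j i h.symm)
  have PN := fun i j => P_sub_N19 (μ := μ) hm hB i j
  have hP := fun i j => P_nonneg19 (μ := μ) (δ := δ) i j
  have s1 := (step19 (μ := μ) hm hB (hpos 0 1 2 3 (by decide))).2.2
  have s2 := (step19 (μ := μ) hm hB (hpos 0 1 3 2 (by decide))).2.2
  have s3 := (step19 (μ := μ) hm hB (hpos 0 2 1 3 (by decide))).2.2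
  have s4 := (step19 (μ := μ) hm hB (hpos 0 2 3 1 (by decide))).2.2
  have s5 := (step19 (μ := μ) hm hB (hpos 0 3 1 2 (by decide))).2.2
  have s6 := (step19 (μ := μ) hm hB (hpos 0 3 2 1 (by decide))).2.2
  have u01 := mu 0 1 (by decide)
  have u02 := mu 0 2 (by decide)
  have u03 := mu 0 3 (by decide)
  have u12 := mu 1 2 (by decide)
  have u13 := mu 1 3 (by decide)
  have u23 := mu 2 3 (by decide)
  have q01 := mul_nonneg hκ0 (hP 0 1)
  have q02 := mul_nonneg hκ0 (hP 0 2)
  have q03 := mul_nonneg hκ0 (hP 0 3)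
  have q12 := mul_nonneg hκ0 (hP 1 2)
  have q13 := mul_nonneg hκ0 (hP 1 3)
  have q23 := mul_nonneg hκ0 (hP 2 3)
  have n01 := N_le19 (μ := μ) hm hB (i := 0) (j := 1) (k := 2) (l := 3) hpos (by decide) q23
    (by linarith)
  have n02 := N_le19 (μ := μ) hm hB (i := 0) (j := 2) (k := 1) (l := 3) hpos (by decide) q13
    (by linarith)
  have n03 := N_le19 (μ := μ) hm hB (i := 0) (j := 3) (k := 1) (l := 2) hpos (by decide) q12
    (by linarith)
  have n12 := N_le19 (μ := μ) hm hB (i := 1) (j := 2) (k := 0) (l := 3) hpos (by decide) q03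
    (by linarith)
  have n13 := N_le19 (μ := μ) hm hB (i := 1) (j := 3) (k := 0) (l := 2) hpos (by decide) q02
    (by linarith)
  have n23 := N_le19 (μ := μ) hm hB (i := 2) (j := 3) (k := 0) (l := 1) hpos (by decide) q01
    (by linarith)
  have r01 := PN 0 1
  have r02 := PN 0 2
  have r03 := PN 0 3
  have r12 := PN 1 2
  have r13 := PN 1 3
  have r23 := PN 2 3
  have hsum : P19 μ δ 0 1 + P19 μ δ 0 2 + P19 μ δ 0 3 + P19 μ δ 1 2 + P19 μ δ 1 3 + P19 μ δ 2 3 ≤
      6 * (1 - cos M) * (P19 μ δ 0 1 + P19 μ δ 0 2 + P19 μ δ 0 3 + P19 μ δ 1 2 + P19 μ δ 1 3 +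
        P19 μ δ 2 3) := by
    linarith
  have hS : 0 ≤ P19 μ δ 0 1 + P19 μ δ 0 2 + P19 μ δ 0 3 + P19 μ δ 1 2 + P19 μ δ 1 3 +
      P19 μ δ 2 3 := by
    have := hP 0 1
    have := hP 0 2
    have := hP 0 3
    have := hP 1 2
    have := hP 1 3
    have := hP 2 3
    linarith
  have hS0 : P19 μ δ 0 1 + P19 μ δ 0 2 + P19 μ δ 0 3 + P19 μ δ 1 2 + P19 μ δ 1 3 +
      P19 μ δ 2 3 ≤ 0 := by
    by_contra hc
    push Not at hc
    nlinarith
  have hS1 : (1 - cos M) * (P19 μ δ 0 1 + P19 μ δ 0 2 + P19 μ δ 0 3 + P19 μ δ 1 2 +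
      P19 μ δ 1 3 + P19 μ δ 2 3) ≤ 0 := mul_nonpos_of_nonneg_of_nonpos hκ0 hS0
  linarith

omit [∀ i, MeasurableSpace (Ω i)] hm hB in
theorem inj_of_nodup19 : ∀ a b c d : Fin 4, [a, b, c, d].Nodup →
    Function.Injective ![a, b, c, d] := by decide

/-- Choice of a cyclic order and of the states. -/
theorem four_ring19 {M : ℝ} (hM : M ≤ π) (hκ : 6 * (1 - cos M) < 1)
    (hle : ∀ i j, i ≠ j → ∀ s t, δ i j s t ≤ M)
    (hs : ∀ i j, i ≠ j → ∫ s, ∫ t, sin (δ i j s t) ∂μ j ∂μ i ≤ 0) :
    ∃ (σ : Equiv.Perm (Fin 4)) (ω : ∀ i, Ω i),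
      δ (σ 0) (σ 1) (ω (σ 0)) (ω (σ 1)) + δ (σ 1) (σ 2) (ω (σ 1)) (ω (σ 2)) +
        δ (σ 2) (σ 3) (ω (σ 2)) (ω (σ 3)) + δ (σ 3) (σ 0) (ω (σ 3)) (ω (σ 0)) ≤ 0 := by
  by_contra hc
  push Not at hc
  refine core19 (μ := μ) hm hB hM hκ hle hs fun a b c d hn sa sb sc sd => ?_
  have hinj := inj_of_nodup19 a b c d hn
  have hbij : Function.Bijective ![a, b, c, d] := Finite.injective_iff_bijective.1 hinj
  have hne : ∀ i, Nonempty (Ω i) := fun i => (μ i).nonempty_of_neZero
  let σ : Equiv.Perm (Fin 4) := Equiv.ofBijective _ hbij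
  simp only [List.nodup_cons, List.mem_cons, List.not_mem_nil, or_false, not_or,
    List.nodup_nil, and_true, not_false_eq_true] at hn
  obtain ⟨⟨nab, nac, nad⟩, ⟨nbc, nbd⟩, ncd⟩ := hn
  let ω : ∀ i, Ω i := Function.update (Function.update (Function.update (Function.update
    (fun i => (hne i).some) d sd) c sc) b sb) a sa
  have wa : ω a = sa := Function.update_self _ _ _
  have wb : ω b = sb := by
    simp only [ω]
    rw [Function.update_of_ne (Ne.symm nab), Function.update_self]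
  have wc : ω c = sc := by
    simp only [ω]
    rw [Function.update_of_ne (Ne.symm nac), Function.update_of_ne (Ne.symm nbc),
      Function.update_self]
  have wd : ω d = sd := by
    simp only [ω]
    rw [Function.update_of_ne (Ne.symm nad), Function.update_of_ne (Ne.symm nbd),
      Function.update_of_ne (Ne.symm ncd), Function.update_self]
  have h := hc σ ω
  have e0 : σ 0 = a := rfl
  have e1 : σ 1 = b := rfl
  have e2 : σ 2 = c := rfl
  have e3 : σ 3 = d := rfl
  rw [e0, e1, e2, e3, wa, wb, wc, wd] at h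
  exact h

end

/-- C2 for `k = 4`: choice of the cyclic order and of the states. `G` is the gain. -/
theorem exists_four {S : Type} [MeasurableSpace S] (μ : Fin 4 → Measure S)
    [∀ i, IsFiniteMeasure (μ i)] (hμ : ∀ i, μ i ≠ 0) (G : Fin 4 → Fin 4 → S → S → ENNReal)
    (hG : ∀ i j, Measurable (Function.uncurry (G i j))) (ψ : Fin 4 → Fin 4 → S → S → ℝ) {M : ℝ}
    (hM0 : 0 ≤ M) (hM2 : M ≤ π / 2) (hκ : 6 * (1 - cos M) < 1)
    (h : ∀ i j, i ≠ j → μ i Set.univ * μ j Set.univ ≤ ∫⁻ s, ∫⁻ t, G i j s t ∂μ j ∂μ i)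
    (E : Fin 4 → Set S) (hE : ∀ i, μ i (E i) = 0)
    (hψ0 : ∀ i j s t, i ≠ j → s ∉ E i → t ∉ E j → 0 ≤ ψ i j s t)
    (hψ1 : ∀ i j s t, i ≠ j → s ∉ E i → t ∉ E j → ψ i j s t ≤ π / 2 + M)
    (hψ : ∀ i j s t, i ≠ j → s ∉ E i → t ∉ E j → G i j s t ≤ ENNReal.ofReal (1 + cos (ψ i j s t))) :
    ∃ (σ : Equiv.Perm (Fin 4)) (s : Fin 4 → S), (∀ i, s i ∉ E i) ∧
      ψ (σ 0) (σ 1) (s (σ 0)) (s (σ 1)) + ψ (σ 1) (σ 2) (s (σ 1)) (s (σ 2)) +
        ψ (σ 2) (σ 3) (s (σ 2)) (s (σ 3)) + ψ (σ 3) (σ 0) (s (σ 3)) (s (σ 0)) ≤ 2 * π := by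
  classical
  let E' : Fin 4 → Set S := fun i => toMeasurable (μ i) (E i)
  have hE' : ∀ i, MeasurableSet (E' i)ᶜ := fun i => (measurableSet_toMeasurable _ _).compl
  have hE0 : ∀ i, μ i (E' i) = 0 := fun i => by rw [measure_toMeasurable, hE i]
  have hnot : ∀ i (s : ((E' i)ᶜ : Set S)), (s : S) ∉ E i := fun i s hs =>
    s.2 (subset_toMeasurable _ _ hs)
  have hr : ∀ i, (μ i).restrict (E' i)ᶜ = μ i := fun i =>
    Measure.restrict_eq_self_of_ae_mem (measure_eq_zero_iff_ae_notMem.1 (hE0 i))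
  let ν : ∀ i, Measure ((E' i)ᶜ : Set S) := fun i => Measure.comap Subtype.val (μ i)
  have hν : ∀ i (f : S → ENNReal), ∫⁻ s, f s ∂(ν i) = ∫⁻ s, f s ∂(μ i) := fun i f => by
    have := lintegral_subtype_comap (μ := μ i) (hE' i) f
    rw [hr i] at this
    exact this
  have hνu : ∀ i, ν i Set.univ = μ i Set.univ := fun i => by
    have := hν i fun _ => 1
    simpa using this
  have : ∀ i, IsFiniteMeasure (ν i) := fun i => ⟨by rw [hνu i]; exact measure_lt_top _ _⟩
  have : ∀ i, NeZero (ν i) := fun i => ⟨fun h0 => hμ i (by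
    rw [← Measure.measure_univ_eq_zero, ← hνu i, h0]
    simp)⟩
  let μ' : ∀ i, Measure ((E' i)ᶜ : Set S) := fun i => (ν i Set.univ)⁻¹ • ν i
  have : ∀ i, IsProbabilityMeasure (μ' i) := fun i => isProbabilityMeasureSMul
  let x : Fin 4 → Fin 4 → S → S → ℝ := fun i j s t => max (G i j s t).toReal (1 - sin M) - 1
  have hsM0 : 0 ≤ sin M := sin_nonneg_of_nonneg_of_le_pi hM0 (by linarith [pi_pos])
  have hsM1 : sin M ≤ 1 := sin_le_one M
  have hGR : ∀ i j, i ≠ j → ∀ (s : ((E' i)ᶜ : Set S)) (t : ((E' j)ᶜ : Set S)),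
      G i j s t ≠ ⊤ ∧ (G i j s t).toReal ≤ 1 + cos (ψ i j s t) := by
    intro i j hij s t
    have h1 := hψ i j s t hij (hnot i s) (hnot j t)
    have h2 : 0 ≤ 1 + cos (ψ i j s t) := by linarith [neg_one_le_cos (ψ i j s t)]
    exact ⟨ne_top_of_le_ne_top ENNReal.ofReal_ne_top h1, ENNReal.toReal_le_of_le_ofReal h2 h1⟩
  have hcos : ∀ i j, i ≠ j → ∀ (s : ((E' i)ᶜ : Set S)) (t : ((E' j)ᶜ : Set S)),
      x i j s t ≤ cos (ψ i j s t) := by
    intro i j hij s t
    have h1 := (hGR i j hij s t).2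
    have h2 := hψ0 i j s t hij (hnot i s) (hnot j t)
    have h3 := hψ1 i j s t hij (hnot i s) (hnot j t)
    have h4 : cos (π / 2 + M) ≤ cos (ψ i j s t) :=
      cos_le_cos_of_nonneg_of_le_pi h2 (by linarith) h3
    rw [show π / 2 + M = M + π / 2 by ring, cos_add_pi_div_two] at h4
    have : max (G i j s t).toReal (1 - sin M) ≤ 1 + cos (ψ i j s t) := max_le h1 (by linarith)
    simp only [x]
    linarith
  let δ : ∀ i j : Fin 4, ((E' i)ᶜ : Set S) → ((E' j)ᶜ : Set S) → ℝ := fun i j s t =>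
    -arcsin (x i j s t)
  have hx1 : ∀ i j (s t : S), -sin M ≤ x i j s t := fun i j s t => by
    have := le_max_right (G i j s t).toReal (1 - sin M)
    simp only [x]
    linarith
  have hxm : ∀ i j, Measurable (Function.uncurry (x i j)) := fun i j => by
    have h1 : Measurable fun p : S × S => (Function.uncurry (G i j) p).toReal :=
      (hG i j).ennreal_toReal
    have h2 : Measurable fun p : S × S =>
        max ((Function.uncurry (G i j) p).toReal) (1 - sin M) - 1 :=
      (h1.max measurable_const).sub_const _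
    exact h2
  have hδm : ∀ i j, Measurable (Function.uncurry (δ i j)) := fun i j => by
    have h1 : Measurable fun p : ((E' i)ᶜ : Set S) × ((E' j)ᶜ : Set S) =>
        Function.uncurry (x i j) ((p.1 : S), (p.2 : S)) :=
      (hxm i j).comp ((measurable_subtype_coe.comp measurable_fst).prodMk
        (measurable_subtype_coe.comp measurable_snd))
    exact (measurable_arcsin.comp h1).neg
  have hδB : ∀ i j s t, |δ i j s t| ≤ π / 2 := fun i j s t => by
    simp only [δ]
    rw [abs_neg, abs_le]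
    exact ⟨neg_pi_div_two_le_arcsin _, arcsin_le_pi_div_two _⟩
  have hδM : ∀ i j, i ≠ j → ∀ s t, δ i j s t ≤ M := fun i j _ s t => by
    have h1 : arcsin (-sin M) ≤ arcsin (x i j s t) := monotone_arcsin (hx1 i j s t)
    rw [arcsin_neg, arcsin_sin (by linarith [pi_pos]) hM2] at h1
    simp only [δ]
    linarith
  have hsin : ∀ i j, i ≠ j → ∫ s, ∫ t, sin (δ i j s t) ∂μ' j ∂μ' i ≤ 0 := by
    intro i j hij
    have hGm : Measurable fun p : ((E' i)ᶜ : Set S) × ((E' j)ᶜ : Set S) => G i j p.1 p.2 :=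
      (hG i j).comp ((measurable_subtype_coe.comp measurable_fst).prodMk
        (measurable_subtype_coe.comp measurable_snd))
    have hlt : ∀ (s : ((E' i)ᶜ : Set S)) (t : ((E' j)ᶜ : Set S)), G i j s t < ⊤ := fun s t =>
      lt_top_iff_ne_top.2 (hGR i j hij s t).1
    have hg2 : ∀ (s : ((E' i)ᶜ : Set S)) (t : ((E' j)ᶜ : Set S)), (G i j s t).toReal ≤ 2 :=
      fun s t => (hGR i j hij s t).2.trans (by linarith [cos_le_one (ψ i j s t)])
    have hGle : ∀ (s : ((E' i)ᶜ : Set S)) (t : ((E' j)ᶜ : Set S)), G i j s t ≤ 2 := fun s t => by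
      rw [← ENNReal.ofReal_toReal (hGR i j hij s t).1]
      exact (ENNReal.ofReal_le_ofReal (hg2 s t)).trans (by simp)
    have hin : ∀ s : ((E' i)ᶜ : Set S), ∫⁻ t, G i j s t ∂μ' j ≤ 2 := fun s => by
      refine (lintegral_mono fun t => hGle s t).trans ?_
      simp
    have hinm : Measurable fun s : ((E' i)ᶜ : Set S) => ∫⁻ t, G i j s t ∂μ' j :=
      hGm.lintegral_prod_right'
    have hgi : Integrable (fun p : ((E' i)ᶜ : Set S) × ((E' j)ᶜ : Set S) =>
        (G i j p.1 p.2).toReal) ((μ' i).prod (μ' j)) :=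
      Integrable.of_bound hGm.ennreal_toReal.aestronglyMeasurable 2
        (Filter.Eventually.of_forall fun p => by
          rw [Real.norm_of_nonneg ENNReal.toReal_nonneg]
          exact hg2 p.1 p.2)
    have hsi : Integrable (fun p : ((E' i)ᶜ : Set S) × ((E' j)ᶜ : Set S) =>
        sin (δ i j p.1 p.2)) ((μ' i).prod (μ' j)) :=
      Integrable.of_bound (measurable_sin.comp (hδm i j)).aestronglyMeasurable 1
        (Filter.Eventually.of_forall fun p => by simpa using abs_sin_le_one (δ i j p.1 p.2))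
    have h1 : ∫ p : ((E' i)ᶜ : Set S) × ((E' j)ᶜ : Set S), (G i j p.1 p.2).toReal
        ∂((μ' i).prod (μ' j)) = (∫⁻ s, ∫⁻ t, G i j s t ∂μ' j ∂μ' i).toReal := by
      rw [integral_toReal hGm.aemeasurable (Filter.Eventually.of_forall fun p => hlt p.1 p.2),
        lintegral_prod _ hGm.aemeasurable]
    have h2 : 1 ≤ ∫⁻ s, ∫⁻ t, G i j s t ∂μ' j ∂μ' i := by
      have e1 : ∀ s : ((E' i)ᶜ : Set S), ∫⁻ t, G i j s t ∂μ' j =
          (μ j Set.univ)⁻¹ * ∫⁻ t, G i j s t ∂μ j := fun s => by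
        simp only [μ']
        rw [lintegral_smul_measure, hνu j, hν j fun t => G i j s t, smul_eq_mul]
      simp_rw [e1]
      have e2 : Measurable fun s : S => ∫⁻ t, G i j s t ∂μ j := (hG i j).lintegral_prod_right'
      have e4 : Measurable fun s : ((E' i)ᶜ : Set S) => ∫⁻ t, G i j s t ∂μ j :=
        e2.comp measurable_subtype_coe
      rw [lintegral_const_mul _ e4]
      simp only [μ']
      rw [lintegral_smul_measure, hνu i, hν i fun s => ∫⁻ t, G i j s t ∂μ j, smul_eq_mul]
      have e3 := h i j hij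
      have i0 : μ i Set.univ ≠ 0 := by simpa using hμ i
      have j0 : μ j Set.univ ≠ 0 := by simpa using hμ j
      have it : μ i Set.univ ≠ ⊤ := measure_ne_top _ _
      have jt : μ j Set.univ ≠ ⊤ := measure_ne_top _ _
      calc (1 : ENNReal) = (μ j Set.univ)⁻¹ * ((μ i Set.univ)⁻¹ *
            (μ i Set.univ * μ j Set.univ)) := by
            rw [← mul_assoc (μ i Set.univ)⁻¹, ENNReal.inv_mul_cancel i0 it, one_mul,
              ENNReal.inv_mul_cancel j0 jt]
        _ ≤ _ := by gcongr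
    have h3 : (∫⁻ s, ∫⁻ t, G i j s t ∂μ' j ∂μ' i) ≠ ⊤ := by
      refine ne_top_of_le_ne_top (b := 2) (by simp) ?_
      refine (lintegral_mono fun s => hin s).trans ?_
      simp
    have h4 : 1 ≤ (∫⁻ s, ∫⁻ t, G i j s t ∂μ' j ∂μ' i).toReal := by
      rw [← ENNReal.toReal_one]
      exact (ENNReal.toReal_le_toReal (by simp) h3).2 h2
    have h5 : ∫ s, ∫ t, sin (δ i j s t) ∂μ' j ∂μ' i =
        ∫ p : ((E' i)ᶜ : Set S) × ((E' j)ᶜ : Set S), sin (δ i j p.1 p.2)
          ∂((μ' i).prod (μ' j)) := (integral_prod _ hsi).symm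
    rw [h5]
    have h6 : ∫ p : ((E' i)ᶜ : Set S) × ((E' j)ᶜ : Set S), sin (δ i j p.1 p.2)
        ∂((μ' i).prod (μ' j)) ≤ ∫ p : ((E' i)ᶜ : Set S) × ((E' j)ᶜ : Set S),
          (1 - (G i j p.1 p.2).toReal) ∂((μ' i).prod (μ' j)) := by
      refine integral_mono hsi ((integrable_const _).sub hgi) fun p => ?_
      have q1 := hcos i j hij p.1 p.2
      have q2 := hx1 i j p.1 p.2
      have q3 := le_max_left (G i j p.1 p.2).toReal (1 - sin M)
      simp only [δ]
      rw [sin_neg, sin_arcsin (by linarith) (q1.trans (cos_le_one _))]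
      simp only [x]
      linarith
    rw [integral_sub (integrable_const _) hgi, h1] at h6
    simp only [integral_const, probReal_univ, one_smul] at h6
    linarith
  obtain ⟨σ, ω, hω⟩ := four_ring19 (μ := μ') (δ := δ) hδm hδB (by linarith [pi_pos]) hκ hδM hsin
  refine ⟨σ, fun i => ω i, fun i => hnot i (ω i), ?_⟩
  have hψδ : ∀ i j, i ≠ j → ψ i j (ω i) (ω j) ≤ π / 2 + δ i j (ω i) (ω j) := by
    intro i j hij
    have h1 := hcos i j hij (ω i) (ω j)
    have h2 := hψ0 i j (ω i) (ω j) hij (hnot i _) (hnot j _)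
    have h3 := hψ1 i j (ω i) (ω j) hij (hnot i _) (hnot j _)
    have h4 : arccos (cos (ψ i j (ω i) (ω j))) ≤ arccos (x i j (ω i) (ω j)) :=
      antitone_arccos h1
    rw [arccos_cos h2 (by linarith)] at h4
    simp only [δ]
    rw [arccos_eq_pi_div_two_sub_arcsin] at h4
    linarith
  have n : ∀ a b : Fin 4, a ≠ b → σ a ≠ σ b := fun a b hab h => hab (σ.injective h)
  have k1 := hψδ _ _ (n 0 1 (by decide))
  have k2 := hψδ _ _ (n 1 2 (by decide))
  have k3 := hψδ _ _ (n 2 3 (by decide))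
  have k4 := hψδ _ _ (n 3 0 (by decide))
  linarith

end Pool.Helper19.FR
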