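import Pool.Agent.Helper19.FR.Ring4

/-!
# Four bodies: the numerical hypotheses for the class `D = 2.0107`, `W = 1.85`
-/

namespace Pool.Helper19.FR

open Pool.Agent.Helper16.Disk7 Pool.Agent.Helper57.CW Pool.Agent.Helper79.MI Pool.Agent.Helper72.PR
open MeasureTheory Metric Complex Set
open scoped ENNReal Pointwise

private lemma sqrt2_bounds : 1.4142 < Real.sqrt 2 ∧ Real.sqrt 2 < 1.4143 := by
  constructor
  · rw [Real.lt_sqrt (by norm_num)]
    norm_num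
  · rw [Real.sqrt_lt' (by norm_num)]
    norm_num

theorem par_four : Par (1 + Real.sqrt 2) 2.0107 1.85 := by
  obtain ⟨h1, h2⟩ := sqrt2_bounds
  have h3 : Real.sqrt 2 ^ 2 = 2 := Real.sq_sqrt (by norm_num)
  refine ⟨by norm_num, by linarith, by norm_num, by linarith, ?_⟩
  rw [Real.lt_sqrt (by linarith)]
  nlinarith

private lemma s_bounds : 1.336 < Real.sqrt ((1 + Real.sqrt 2) ^ 2 - 2.0107 ^ 2) ∧
    Real.sqrt ((1 + Real.sqrt 2) ^ 2 - 2.0107 ^ 2) < 1.337 := by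
  obtain ⟨h1, h2⟩ := sqrt2_bounds
  have h3 : Real.sqrt 2 ^ 2 = 2 := Real.sq_sqrt (by norm_num)
  constructor
  · rw [Real.lt_sqrt (by norm_num)]
    nlinarith
  · rw [Real.sqrt_lt' (by norm_num)]
    nlinarith

theorem kap_four_lt : Real.pi / 4 < kap (1 + Real.sqrt 2) 2.0107 := by
  obtain ⟨h1, h2⟩ := sqrt2_bounds
  obtain ⟨h3, h4⟩ := s_bounds
  by_contra hc
  push Not at hc
  have hπ := Real.pi_pos
  have := Real.cos_le_cos_of_nonneg_of_le_pi par_four.kap_pos.le (by linarith) hc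
  rw [par_four.cos_kap, Real.cos_pi_div_four, le_div_iff₀ (by linarith)] at this
  nlinarith

theorem kap_four_le : kap (1 + Real.sqrt 2) 2.0107 ≤ Real.pi / 3 := by
  obtain ⟨h1, h2⟩ := sqrt2_bounds
  obtain ⟨h3, h4⟩ := s_bounds
  by_contra hc
  push Not at hc
  have hπ := Real.pi_pos
  have := Real.cos_le_cos_of_nonneg_of_le_pi (by positivity : 0 ≤ Real.pi / 3)
    (par_four.kap_lt.le.trans (by linarith)) hc.le
  rw [par_four.cos_kap, Real.cos_pi_div_three, div_le_iff₀ (by linarith)] at this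
  linarith

theorem kap_four_cos :
    6 * (1 - Real.cos (2 * kap (1 + Real.sqrt 2) 2.0107 - Real.pi / 2)) < 1 := by
  obtain ⟨h1, h2⟩ := sqrt2_bounds
  obtain ⟨h3, h4⟩ := s_bounds
  have hR : 0 < 1 + Real.sqrt 2 := by linarith
  have hs : Real.sin (kap (1 + Real.sqrt 2) 2.0107) = 2.0107 / (1 + Real.sqrt 2) := by
    rw [kap, Real.sin_arccos, div_pow, Real.sq_sqrt par_four.sq_pos.le]
    have e : 1 - ((1 + Real.sqrt 2) ^ 2 - 2.0107 ^ 2) / (1 + Real.sqrt 2) ^ 2 =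
        (2.0107 / (1 + Real.sqrt 2)) ^ 2 := by
      field_simp
      ring
    rw [e, Real.sqrt_sq (by positivity)]
  rw [Real.cos_sub_pi_div_two, Real.sin_two_mul, hs, par_four.cos_kap]
  have h5 : 5 / 6 < 2 * (2.0107 / (1 + Real.sqrt 2)) *
      (Real.sqrt ((1 + Real.sqrt 2) ^ 2 - 2.0107 ^ 2) / (1 + Real.sqrt 2)) := by
    have e : 2 * (2.0107 / (1 + Real.sqrt 2)) *
        (Real.sqrt ((1 + Real.sqrt 2) ^ 2 - 2.0107 ^ 2) / (1 + Real.sqrt 2)) =
        2 * 2.0107 * Real.sqrt ((1 + Real.sqrt 2) ^ 2 - 2.0107 ^ 2) / (1 + Real.sqrt 2) ^ 2 := by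
      field_simp
    rw [e, lt_div_iff₀ (by positivity)]
    nlinarith
  linarith

/-- Four polygons of the class in the disk of radius `1 + √2`. -/
theorem four_polygons_class (V : Fin 4 → Finset ℂ) (h0 : ∀ i, 0 ∈ interior (hull (V i)))
    (hVR : ∀ i, ∀ x ∈ V i, ‖x‖ < 1 + Real.sqrt 2)
    (hper : ∀ i, perimeter (hull (V i)) ≤ 2 * Real.pi)
    (hNC : ∀ (i j : Fin 4), i ≠ j → ∀ (γ : ℝ) (τ : ℂ),
      Disjoint (hull (V i)) (mov γ τ (hull (V j))) →
      ¬ (ctr (V i) (1 + Real.sqrt 2) ⊆ ctr (mov γ τ (V j)) (1 + Real.sqrt 2)) ∧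
        ¬ (ctr (mov γ τ (V j)) (1 + Real.sqrt 2) ⊆ ctr (V i) (1 + Real.sqrt 2)))
    (hBody : ∀ i, ∀ x ∈ V i, ∀ v ∈ st (V i) (1 + Real.sqrt 2) x,
      Body (1 + Real.sqrt 2) 2.0107 1.85 (pl (V i) (1 + Real.sqrt 2) x v)) :
    ∃ (x : Fin 4 → ℂ) (v α : Fin 4 → ℝ),
      (∀ i, x i ∈ V i ∧ v i ∈ st (V i) (1 + Real.sqrt 2) (x i)) ∧
      ∀ i j, i ≠ j → Disjoint (interior (rot (α i) (pl (V i) (1 + Real.sqrt 2) (x i) (v i))))
        (interior (rot (α j) (pl (V j) (1 + Real.sqrt 2) (x j) (v j)))) := by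
  obtain ⟨h1, h2⟩ := sqrt2_bounds
  have h3 : Real.sqrt 2 ^ 2 = 2 := Real.sq_sqrt (by norm_num)
  have hπ := Real.pi_pos
  refine four_polygons rfl par_four (b0 := Real.pi / 4) (by positivity) (by linarith) ?_
    kap_four_lt (by linarith [kap_four_le]) kap_four_cos V h0 hVR hper hNC hBody
  rw [Real.cos_pi_div_four]
  nlinarith

end Pool.Helper19.FR
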