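import Pool.Agent.Helper19.FR.Poly4

/-!
# Four polygons of the class `diam ≤ 2.0944`, `width ≥ 1.758`
-/

namespace Pool.Helper19.FR

open Pool.Agent.Helper16.Disk7 Pool.Agent.Helper57.CW Pool.Agent.Helper79.MI Pool.Agent.Helper72.PR
open MeasureTheory Metric Complex Set
open scoped ENNReal Pointwise

private lemma sqrt2_bounds' : 1.4142 < Real.sqrt 2 ∧ Real.sqrt 2 < 1.4143 := by
  constructor
  · rw [Real.lt_sqrt (by norm_num)]
    norm_num
  · rw [Real.sqrt_lt' (by norm_num)]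
    norm_num

theorem par_four_b : Par (1 + Real.sqrt 2) 2.0944 1.758 := by
  obtain ⟨h1, h2⟩ := sqrt2_bounds'
  have h3 : Real.sqrt 2 ^ 2 = 2 := Real.sq_sqrt (by norm_num)
  refine ⟨by norm_num, by linarith, by norm_num, by linarith, ?_⟩
  rw [Real.lt_sqrt (by linarith)]
  nlinarith

private lemma s_bounds' : 1.2 < Real.sqrt ((1 + Real.sqrt 2) ^ 2 - 2.0944 ^ 2) ∧
    Real.sqrt ((1 + Real.sqrt 2) ^ 2 - 2.0944 ^ 2) < 1.202 := by
  obtain ⟨h1, h2⟩ := sqrt2_bounds'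
  have h3 : Real.sqrt 2 ^ 2 = 2 := Real.sq_sqrt (by norm_num)
  constructor
  · rw [Real.lt_sqrt (by norm_num)]
    nlinarith
  · rw [Real.sqrt_lt' (by norm_num)]
    nlinarith

theorem kap_four_lt_b : Real.pi / 4 < kap (1 + Real.sqrt 2) 2.0944 := by
  obtain ⟨h1, h2⟩ := sqrt2_bounds'
  obtain ⟨h3, h4⟩ := s_bounds'
  by_contra hc
  push Not at hc
  have hπ := Real.pi_pos
  have := Real.cos_le_cos_of_nonneg_of_le_pi par_four_b.kap_pos.le (by linarith) hc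
  rw [par_four_b.cos_kap, Real.cos_pi_div_four, le_div_iff₀ (by linarith)] at this
  nlinarith

private lemma cos_107 : Real.cos 1.07 ≤ 0.49 := by
  have h1 : Real.cos (2 * 0.535) = 2 * Real.cos 0.535 ^ 2 - 1 := Real.cos_two_mul 0.535
  have h2 := Real.sin_sq_add_cos_sq 0.535
  have h3 := (abs_le.1 (Real.sin_bound (x := 0.535) (by rw [abs_of_nonneg] <;> norm_num))).1
  rw [abs_of_nonneg (by norm_num : (0 : ℝ) ≤ 0.535)] at h3
  have h4 : 0.505 ≤ Real.sin 0.535 := by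
    norm_num at h3 ⊢
    linarith
  rw [show (1.07 : ℝ) = 2 * 0.535 by norm_num, h1]
  nlinarith

theorem kap_four_le_b : kap (1 + Real.sqrt 2) 2.0944 ≤ 1.07 := by
  obtain ⟨h1, h2⟩ := sqrt2_bounds'
  obtain ⟨h3, h4⟩ := s_bounds'
  by_contra hc
  push Not at hc
  have hπ := Real.pi_pos
  have := Real.cos_le_cos_of_nonneg_of_le_pi (by norm_num : (0 : ℝ) ≤ 1.07)
    (par_four_b.kap_lt.le.trans (by linarith)) hc.le
  rw [par_four_b.cos_kap, div_le_iff₀ (by linarith)] at this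
  have h5 := cos_107
  nlinarith

theorem kap_four_cos_b :
    6 * (1 - Real.cos (2 * kap (1 + Real.sqrt 2) 2.0944 - Real.pi / 2)) < 1 := by
  obtain ⟨h1, h2⟩ := sqrt2_bounds'
  obtain ⟨h3, h4⟩ := s_bounds'
  have hR : 0 < 1 + Real.sqrt 2 := by linarith
  have hs : Real.sin (kap (1 + Real.sqrt 2) 2.0944) = 2.0944 / (1 + Real.sqrt 2) := by
    rw [kap, Real.sin_arccos, div_pow, Real.sq_sqrt par_four_b.sq_pos.le]
    have e : 1 - ((1 + Real.sqrt 2) ^ 2 - 2.0944 ^ 2) / (1 + Real.sqrt 2) ^ 2 =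
        (2.0944 / (1 + Real.sqrt 2)) ^ 2 := by
      field_simp
      ring
    rw [e, Real.sqrt_sq (by positivity)]
  rw [Real.cos_sub_pi_div_two, Real.sin_two_mul, hs, par_four_b.cos_kap]
  have h5 : 5 / 6 < 2 * (2.0944 / (1 + Real.sqrt 2)) *
      (Real.sqrt ((1 + Real.sqrt 2) ^ 2 - 2.0944 ^ 2) / (1 + Real.sqrt 2)) := by
    have e : 2 * (2.0944 / (1 + Real.sqrt 2)) *
        (Real.sqrt ((1 + Real.sqrt 2) ^ 2 - 2.0944 ^ 2) / (1 + Real.sqrt 2)) =
        2 * 2.0944 * Real.sqrt ((1 + Real.sqrt 2) ^ 2 - 2.0944 ^ 2) / (1 + Real.sqrt 2) ^ 2 := by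
      field_simp
    rw [e, lt_div_iff₀ (by positivity)]
    nlinarith
  linarith

/-- The ring of four polygons of the class `diam ≤ 2.0944`, `width ≥ 1.758`. -/
theorem ring_polygons_four_b {R : ℝ} (hR : R = 1 + 1 / Real.sin (Real.pi / (4 : ℕ)))
    (V : Fin 4 → Finset ℂ) (h0 : ∀ i, 0 ∈ interior (hull (V i)))
    (hd : ∀ i, ∀ x ∈ hull (V i), ∀ y ∈ hull (V i), ‖x - y‖ ≤ 2.0944)
    (hw : ∀ i, ∀ θ : ℝ, ∃ x ∈ hull (V i), ∃ y ∈ hull (V i), 1.758 ≤ ip x (e θ) - ip y (e θ))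
    (hper : ∀ i, perimeter (hull (V i)) ≤ 2 * Real.pi) :
    ∃ (x : Fin 4 → ℂ) (v α : Fin 4 → ℝ), (∀ i, x i ∈ V i ∧ v i ∈ st (V i) R (x i)) ∧
      ∀ i j, i ≠ j → Disjoint (interior (rot (α i) (pl (V i) R (x i) (v i))))
        (interior (rot (α j) (pl (V j) R (x j) (v j)))) := by
  rw [R_four] at hR
  subst hR
  obtain ⟨h1, h2⟩ := sqrt2_bounds'
  have h3 : Real.sqrt 2 ^ 2 = 2 := Real.sq_sqrt (by norm_num)
  have hπ := Real.pi_gt_d2
  have hne : ∀ i, (hull (V i)).Nonempty := fun i => ⟨0, interior_subset (h0 i)⟩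
  refine four_polygons rfl par_four_b (b0 := 1) (by norm_num) (by linarith) ?_
    kap_four_lt_b (by linarith [kap_four_le_b]) kap_four_cos_b V h0 (fun i x hx => ?_) hper
    (fun i j _ γ τ h => ?_) (fun i x hx v hv => body_pl (hd i) (hw i) hx hv)
  · have h4 := Real.cos_one_le
    nlinarith
  · have h4 := hd i x (subset_convexHull ℝ _ hx) 0 (interior_subset (h0 i))
    rw [sub_zero] at h4
    linarith
  · exact no_containment_class par_four_b (hne i) (hne j) (hd i) (hw i) (hd j) (hw j) γ τ h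

end Pool.Helper19.FR
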