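import Pool.Agent.Helper19.FR.Num4
import Pool.Agent.Helper72.PR.Pl

/-!
# Four polygons of the class `diam ≤ 2.0107`, `width ≥ 1.85`
-/

namespace Pool.Helper19.FR

open Pool.Agent.Helper16.Disk7 Pool.Agent.Helper57.CW Pool.Agent.Helper79.MI Pool.Agent.Helper72.PR
open MeasureTheory Metric Complex Set
open scoped ENNReal Pointwise

lemma R_four : 1 + 1 / Real.sin (Real.pi / (4 : ℕ)) = 1 + Real.sqrt 2 := by
  have h : Real.sin (Real.pi / (4 : ℕ)) = Real.sqrt 2 / 2 := by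
    rw [show ((4 : ℕ) : ℝ) = 4 by norm_num]
    exact Real.sin_pi_div_four
  rw [h]
  have h2 : Real.sqrt 2 * Real.sqrt 2 = 2 := Real.mul_self_sqrt (by norm_num)
  have h3 : Real.sqrt 2 ≠ 0 := by positivity
  field_simp
  linarith

/-- The ring of four polygons of the class. -/
theorem ring_polygons_four {R : ℝ} (hR : R = 1 + 1 / Real.sin (Real.pi / (4 : ℕ)))
    (V : Fin 4 → Finset ℂ) (h0 : ∀ i, 0 ∈ interior (hull (V i)))
    (hd : ∀ i, ∀ x ∈ hull (V i), ∀ y ∈ hull (V i), ‖x - y‖ ≤ 2.0107)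
    (hw : ∀ i, ∀ θ : ℝ, ∃ x ∈ hull (V i), ∃ y ∈ hull (V i), 1.85 ≤ ip x (e θ) - ip y (e θ))
    (hper : ∀ i, perimeter (hull (V i)) ≤ 2 * Real.pi) :
    ∃ (x : Fin 4 → ℂ) (v α : Fin 4 → ℝ), (∀ i, x i ∈ V i ∧ v i ∈ st (V i) R (x i)) ∧
      ∀ i j, i ≠ j → Disjoint (interior (rot (α i) (pl (V i) R (x i) (v i))))
        (interior (rot (α j) (pl (V j) R (x j) (v j)))) := by
  rw [R_four] at hR
  subst hR
  have hs : 1.4142 < Real.sqrt 2 := by
    rw [Real.lt_sqrt (by norm_num)]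
    norm_num
  have hne : ∀ i, (hull (V i)).Nonempty := fun i => ⟨0, interior_subset (h0 i)⟩
  refine four_polygons_class V h0 (fun i x hx => ?_) hper (fun i j _ γ τ h => ?_)
    (fun i x hx v hv => body_pl (hd i) (hw i) hx hv)
  · have h1 := hd i x (subset_convexHull ℝ _ hx) 0 (interior_subset (h0 i))
    rw [sub_zero] at h1
    linarith
  · exact no_containment_class par_four (hne i) (hne j) (hd i) (hw i) (hd j) (hw j) γ τ h

end Pool.Helper19.FR
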