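import Pool.Agent.Helper72.PR.Ring
import Pool.Agent.Helper79.MI.MeanGain
import Pool.Agent.Helper79.MI.States
import Pool.Agent.Helper79.MI.Gain
import Pool.Agent.Helper19.FR.Four

/-!
# Four bodies

The ring for `k = 4`: the angles `ω i` are chosen between the contact angle and `2 kap`, with sum `2 π`.
-/

namespace Pool.Helper19.FR

open Pool.Agent.Helper16.Disk7 Pool.Agent.Helper57.CW Pool.Agent.Helper79.MI Pool.Agent.Helper72.PR
open MeasureTheory Metric Complex Set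
open scoped ENNReal Pointwise

variable {R D W : ℝ}

theorem psi_nonneg19 (K L : Set ℂ) : 0 ≤ psi K L := by
  apply Real.sInf_nonneg
  rintro x (⟨hx, -⟩ | hx)
  · exact hx.le
  · rw [Set.mem_singleton_iff] at hx
    rw [hx]
    exact Real.pi_pos.le

/-- The ring of four bodies. -/
theorem ring_four (hp : Par R D W) {b0 : ℝ} (hb0 : 0 ≤ b0) (hbπ : b0 ≤ Real.pi)
    (hb : 2 * (R - W) * R * Real.cos b0 ≤ (R - W) ^ 2 + R ^ 2 - D ^ 2)
    (hκ : Real.pi / 4 < kap R D) (hκ2 : 2 * b0 + 4 * kap R D ≤ 2 * Real.pi)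
    (K : Fin 4 → Set ℂ) (hK : ∀ i, Body R D W (K i)) (hi : ∀ i, (interior (K i)).Nonempty)
    (h : ∑ i, psi (K i) (K (i + 1)) ≤ 2 * Real.pi) :
    ∃ α : Fin 4 → ℝ, ∀ i j, i ≠ j →
      Disjoint (interior (rot (α i) (K i))) (interior (rot (α j) (K j))) := by
  set S : ℝ := ∑ i, psi (K i) (K (i + 1)) with hS
  have hπ := Real.pi_pos
  have hden : 0 < 8 * kap R D - S := by linarith
  set t : ℝ := (2 * Real.pi - S) / (8 * kap R D - S) with ht
  have ht0 : 0 ≤ t := div_nonneg (by linarith) hden.le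
  have ht1 : t ≤ 1 := by
    rw [ht, div_le_one hden]
    linarith
  have hψ : ∀ i, psi (K i) (K (i + 1)) ≤ 2 * kap R D := fun i =>
    psi_le_two_kap hp (hK i) (hK (i + 1))
  set ω : Fin 4 → ℝ := fun i => psi (K i) (K (i + 1)) +
    t * (2 * kap R D - psi (K i) (K (i + 1))) with hω
  have hω1 : ∀ i, psi (K i) (K (i + 1)) ≤ ω i := fun i => by
    have := mul_nonneg ht0 (sub_nonneg.2 (hψ i))
    simp only [hω]
    linarith
  have hω2 : ∀ i, ω i ≤ 2 * kap R D := fun i => by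
    have := mul_nonneg (sub_nonneg.2 ht1) (sub_nonneg.2 (hψ i))
    simp only [hω]
    linarith
  have hsum : ∑ i, ω i = 2 * Real.pi := by
    simp only [hω]
    rw [Finset.sum_add_distrib, ← Finset.mul_sum, Finset.sum_sub_distrib, ← hS]
    simp only [Finset.sum_const, Finset.card_univ, Fintype.card_fin, nsmul_eq_mul]
    have : t * (8 * kap R D - S) = 2 * Real.pi - S := by
      rw [ht]
      field_simp
    push_cast
    linarith
  refine ⟨fun i => ang ω i, ring hp hb0 hbπ hb K hK hi ω hω1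
    (fun i => (psi_nonneg19 _ _).trans (hω1 i)) hsum ?_⟩
  have e := hsum
  rw [Fin.sum_univ_four] at e
  intro i
  fin_cases i
  · show 2 * b0 ≤ ω 0 + ω 1
    linarith [hω2 2, hω2 3]
  · show 2 * b0 ≤ ω 1 + ω 2
    linarith [hω2 3, hω2 0]
  · show 2 * b0 ≤ ω 2 + ω 3
    linarith [hω2 0, hω2 1]
  · show 2 * b0 ≤ ω 3 + ω 0
    linarith [hω2 1, hω2 2]

theorem interior_pl_nonempty19 {V : Finset ℂ} (h : (interior (hull V)).Nonempty) (R : ℝ) (x : ℂ)
    (v : ℝ) : (interior (pl V R x v)).Nonempty := by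
  have hne : e (-v) ≠ 0 := by
    intro h0
    have := norm_e (-v)
    rw [h0, norm_zero] at this
    exact zero_ne_one this
  have hopen : IsOpenMap fun z : ℂ => e (-v) * (z - (x - R * e v)) :=
    (Homeomorph.mulLeft₀ (e (-v)) hne).isOpenMap.comp
      (Homeomorph.subRight (x - R * e v)).isOpenMap
  exact (h.image _).mono (hopen.image_interior_subset _)

/-- Four polygons in the disk of radius `R = 1 + √2`: states and angles. -/
theorem four_polygons (hR : R = 1 + Real.sqrt 2) (hp : Par R D W) {b0 : ℝ} (hb0 : 0 ≤ b0)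
    (hbπ : b0 ≤ Real.pi) (hb : 2 * (R - W) * R * Real.cos b0 ≤ (R - W) ^ 2 + R ^ 2 - D ^ 2)
    (hκ : Real.pi / 4 < kap R D) (hκ2 : 2 * b0 + 4 * kap R D ≤ 2 * Real.pi)
    (hκ3 : 6 * (1 - Real.cos (2 * kap R D - Real.pi / 2)) < 1)
    (V : Fin 4 → Finset ℂ) (h0 : ∀ i, 0 ∈ interior (hull (V i)))
    (hVR : ∀ i, ∀ x ∈ V i, ‖x‖ < R) (hper : ∀ i, perimeter (hull (V i)) ≤ 2 * Real.pi)
    (hNC : ∀ (i j : Fin 4), i ≠ j → ∀ (γ : ℝ) (τ : ℂ),
      Disjoint (hull (V i)) (mov γ τ (hull (V j))) →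
      ¬ (ctr (V i) R ⊆ ctr (mov γ τ (V j)) R) ∧ ¬ (ctr (mov γ τ (V j)) R ⊆ ctr (V i) R))
    (hBody : ∀ i, ∀ x ∈ V i, ∀ v ∈ st (V i) R x, Body R D W (pl (V i) R x v)) :
    ∃ (x : Fin 4 → ℂ) (v α : Fin 4 → ℝ), (∀ i, x i ∈ V i ∧ v i ∈ st (V i) R (x i)) ∧
      ∀ i j, i ≠ j → Disjoint (interior (rot (α i) (pl (V i) R (x i) (v i))))
        (interior (rot (α j) (pl (V j) R (x j) (v j)))) := by
  have hπ := Real.pi_pos
  have hd : (2 : ℝ) ≤ Real.sqrt 2 ^ 2 := by rw [Real.sq_sqrt (by norm_num)]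
  have hd0 : 0 < Real.sqrt 2 := by positivity
  have hmg := fun i j (hij : i ≠ j) => mean_gain hR hd hd0 (h0 i) (h0 j) (hVR i) (hVR j) (hper i)
    (hper j) (hNC i j hij)
  have hc1 : ENNReal.ofReal (2 - 2 / Real.sqrt 2 ^ 2) = 1 := by
    rw [Real.sq_sqrt (by norm_num)]
    norm_num
  have hne : ∀ i : Fin 4, ∃ j, i ≠ j := by decide
  have hmass : ∀ i, 0 < mass (V i) R := fun i => by
    obtain ⟨j, hj⟩ := hne i
    exact (hmg i j hj).2.1
  have hκ1 := hp.kap_lt
  obtain ⟨σ, s, hs, hsum⟩ := exists_four (fun i => muSt (V i) R)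
    (fun i h => (hmass i).ne' (by rw [← muSt_univ, h]; rfl))
    (fun i j => gainSt (V i) (V j) R) (fun i j => measurable_gainSt (V i) (V j) R)
    (fun i j s t => psi (pl (V i) R s.1 s.2) (pl (V j) R t.1 t.2))
    (M := 2 * kap R D - Real.pi / 2) (by linarith) (by linarith) hκ3
    (fun i j hij => by
      rw [lintegral_gainSt, muSt_univ, muSt_univ]
      have := (hmg i j hij).1
      rwa [hc1, one_mul] at this)
    (fun i => (stSet (V i) R)ᶜ) (fun i => muSt_compl (V i) R)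
    (fun i j s t _ _ _ => psi_nonneg19 _ _)
    (fun i j s t _ hs ht => by
      simp only [Set.mem_compl_iff, not_not] at hs ht
      have := psi_le_two_kap hp (hBody i s.1 hs.1 s.2 hs.2) (hBody j t.1 ht.1 t.2 ht.2)
      linarith)
    (fun i j s t _ hs ht => by
      simp only [Set.mem_compl_iff, not_not] at hs ht
      have := (gain_le (V i) (V j) R s.1 s.2 t.1 t.2).1
      rw [show gainSt (V i) (V j) R s t = gain (V i) (V j) R s.1 s.2 t.1 t.2 from
        gainSt_eq hs.1 ht.1 s.2 t.2]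
      exact this)
  simp only [Set.mem_compl_iff, not_not] at hs
  -- the permuted family
  have hi : ∀ i, (interior (pl (V (σ i)) R (s (σ i)).1 (s (σ i)).2)).Nonempty := by
    intro i
    exact interior_pl_nonempty19 ⟨0, h0 (σ i)⟩ _ _ _
  obtain ⟨α, hα⟩ := ring_four hp hb0 hbπ hb hκ hκ2
    (fun i => pl (V (σ i)) R (s (σ i)).1 (s (σ i)).2)
    (fun i => hBody (σ i) _ (hs (σ i)).1 _ (hs (σ i)).2) hi (by
      rw [Fin.sum_univ_four]
      exact hsum)
  refine ⟨fun i => (s i).1, fun i => (s i).2, fun i => α (σ.symm i), fun i => hs i,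
    fun i j hij => ?_⟩
  have := hα (σ.symm i) (σ.symm j) (fun h => hij (σ.symm.injective h))
  simp only [Equiv.apply_symm_apply] at this
  exact this

end Pool.Helper19.FR
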